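import Mathlib
import Pool.Agent.H50.CS.Final

/-!
# A measure with a continuous subsolution but no continuous solution

Counterexample to Kołodziej's continuous subsolution problem for the complex Monge-Ampère equation,
in the unit ball of `ℂ³`. The whole proof is in `Pool.Agent.H50.CS`.
-/

set_option autoImplicit false

noncomputable section

open Complex Metric MeasureTheory Set Filter Topology
open scoped ContDiff ComplexOrder

namespace Pool.Agent.Results.MP_529c98_an.NoContinuousSolution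

/-- `ℂⁿ` with its Euclidean norm. -/
abbrev Cn (n : ℕ) := EuclideanSpace ℂ (Fin n)

variable {n : ℕ}

/-- `u` is a continuous plurisubharmonic function on the open set `Ω ⊆ ℂⁿ`: `u` is continuous on
`Ω` and `u(a) ≤ (1/2π) ∫₀^{2π} u(a + e^{iθ} b) dθ` whenever the closed complex disc
`{a + ζ b : |ζ| ≤ 1}` is contained in `Ω`. -/
def ContPsh (Ω : Set (Cn n)) (u : Cn n → ℝ) : Prop :=
  ContinuousOn u Ω ∧ ∀ a b : Cn n, (∀ ζ : ℂ, ‖ζ‖ ≤ 1 → a + ζ • b ∈ Ω) →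
    u a ≤ (2 * Real.pi)⁻¹ * ∫ θ in (0 : ℝ)..(2 * Real.pi), u (a + Complex.exp (θ * I) • b)

/-- `∂g/∂z_j = ½ (∂g/∂x_j - i ∂g/∂y_j)`. -/
def dz (j : Fin n) (g : Cn n → ℂ) (z : Cn n) : ℂ :=
  (1 / 2 : ℂ) * (fderiv ℝ g z (EuclideanSpace.single j 1) -
    I * fderiv ℝ g z (I • EuclideanSpace.single j 1))

/-- `∂g/∂z̄_j = ½ (∂g/∂x_j + i ∂g/∂y_j)`. -/
def dzbar (j : Fin n) (g : Cn n → ℂ) (z : Cn n) : ℂ :=
  (1 / 2 : ℂ) * (fderiv ℝ g z (EuclideanSpace.single j 1) +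
    I * fderiv ℝ g z (I • EuclideanSpace.single j 1))

/-- The complex Hessian matrix `(∂²v/∂z_j∂z̄_k)_{j,k}` of a real function `v`. -/
def hess (v : Cn n → ℝ) (z : Cn n) : Matrix (Fin n) (Fin n) ℂ :=
  Matrix.of fun j k => dzbar k (dz j (fun y => (v y : ℂ))) z

/-- `v` is smooth and plurisubharmonic on the open set `V`: of class `C^∞` with positive
semidefinite complex Hessian. -/
def SmoothPsh (V : Set (Cn n)) (v : Cn n → ℝ) : Prop :=
  ContDiffOn ℝ ∞ v V ∧ ∀ z ∈ V, (hess v z).PosSemidef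

/-- `ν` is the Bedford-Taylor measure `(dd^c u)^n` on the open set `Ω` of the continuous
plurisubharmonic function `u` (a Borel measure on `ℂⁿ` carried by `Ω` and finite on the compact
subsets of `Ω`): for every open `V ⊆ Ω` and all smooth plurisubharmonic functions `v_k` on `V`
converging to `u` uniformly on `V`, the measures
`(dd^c v_k)^n = 4ⁿ n! det(∂²v_k/∂z_j∂z̄_k) dV` converge weakly on `V` to `ν`. -/
structure IsMA (Ω : Set (Cn n)) (u : Cn n → ℝ) (ν : Measure (Cn n)) : Prop where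
  carried : ν Ωᶜ = 0
  finite : ∀ K, IsCompact K → K ⊆ Ω → ν K < ⊤
  limit : ∀ V, IsOpen V → V ⊆ Ω → ∀ v : ℕ → Cn n → ℝ, (∀ k, SmoothPsh V (v k)) →
    TendstoUniformlyOn v u atTop V →
    ∀ χ : Cn n → ℝ, Continuous χ → HasCompactSupport χ → tsupport χ ⊆ V →
      Tendsto (fun k => ∫ z, χ z * (4 ^ n * n.factorial * (hess (v k) z).det.re)) atTop
        (𝓝 (∫ z, χ z ∂ν))

/-- `Ω` is hyperconvex: it has a negative (continuous) plurisubharmonic function all of whose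
sublevel sets `{ρ < c}`, `c < 0`, are relatively compact in `Ω`. -/
def Hyperconvex (Ω : Set (Cn n)) : Prop :=
  ∃ ρ : Cn n → ℝ, ContPsh Ω ρ ∧ (∀ z ∈ Ω, ρ z < 0) ∧
    ∀ c : ℝ, c < 0 → ∃ K, IsCompact K ∧ K ⊆ Ω ∧ ∀ z ∈ Ω, ρ z < c → z ∈ K

/-- `u` is a continuous plurisubharmonic function on `Ω` with zero boundary values and
`(dd^c u)^n = ν`. -/
structure ContSol (Ω : Set (Cn n)) (u : Cn n → ℝ) (ν : Measure (Cn n)) : Prop where
  psh : ContPsh Ω u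
  boundary : ∀ y ∈ frontier Ω, Tendsto u (𝓝[Ω] y) (𝓝 0)
  ma : IsMA Ω u ν

open Pool.Agent.H50 in
private theorem smoothPsh_iff {V : Set (Cn 3)} (hV : IsOpen V) (v : Cn 3 → ℝ) :
    SmoothPsh V v ↔ CS.SmoothPsh V v := by
  have h2 : (2 : WithTop ℕ∞) ≤ ∞ := ENat.LEInfty.out
  constructor
  · rintro ⟨h, hp⟩
    exact ⟨h, fun z hz w => CS.levi_nonneg_of_psd
      ((h.contDiffAt (hV.mem_nhds hz)).of_le h2) (hp z hz) w⟩
  · rintro ⟨h, hp⟩
    exact ⟨h, fun z hz => (CS.hm_psd ((h.contDiffAt (hV.mem_nhds hz)).of_le h2) (hp z hz)).2⟩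

open Pool.Agent.H50 in
private theorem isMA_iff (Ω : Set (Cn 3)) (u : Cn 3 → ℝ) (ν : Measure (Cn 3)) :
    IsMA Ω u ν ↔ CS.IsMA Ω u ν := by
  constructor
  · intro h
    exact ⟨h.carried, h.finite, fun V hV hVΩ v hv hvu χ hχ hχc hχV =>
      h.limit V hV hVΩ v (fun k => (smoothPsh_iff hV (v k)).2 (hv k)) hvu χ hχ hχc hχV⟩
  · intro h
    exact ⟨h.off, h.fin, fun V hV hVΩ v hv hvu χ hχ hχc hχV =>
      h.lim V hV hVΩ v (fun k => (smoothPsh_iff hV (v k)).1 (hv k)) hvu χ hχ hχc hχV⟩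

open Pool.Agent.H50 in
private theorem contSol_iff (Ω : Set (Cn 3)) (u : Cn 3 → ℝ) (ν : Measure (Cn 3)) :
    ContSol Ω u ν ↔ CS.ContSol Ω u ν :=
  ⟨fun h => ⟨h.psh, h.boundary, (isMA_iff Ω u ν).1 h.ma⟩,
    fun h => ⟨h.psh, h.bdry, (isMA_iff Ω u ν).2 h.isMA⟩⟩

/-- In `ℂ³` every continuous plurisubharmonic function on an open set has exactly one
Monge-Ampère measure in the sense of `IsMA`; the unit ball of `ℂ³` is hyperconvex; and there is a
Borel probability measure `μ` on the unit ball, absolutely continuous with respect to Lebesgue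
measure, which has a continuous subsolution (`μ ≤ (dd^c φ)³`, `φ = 0` on the boundary) but no
continuous solution. -/
theorem result :
    (∀ (Ω : Set (Cn 3)) (u : Cn 3 → ℝ), IsOpen Ω → ContPsh Ω u → ∃! ν, IsMA Ω u ν) ∧
    Hyperconvex (ball (0 : Cn 3) 1) ∧
    ∃ μ : Measure (Cn 3), IsProbabilityMeasure μ ∧ μ (ball (0 : Cn 3) 1)ᶜ = 0 ∧ μ ≪ volume ∧
      (∃ (φ : Cn 3 → ℝ) (ν : Measure (Cn 3)), ContSol (ball (0 : Cn 3) 1) φ ν ∧ μ ≤ ν) ∧
      ¬ ∃ φ : Cn 3 → ℝ, ContSol (ball (0 : Cn 3) 1) φ μ := by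
  refine ⟨fun Ω u hΩ hu => ?_, Pool.Agent.H50.CS.hyperconvex_ball, ?_⟩
  · obtain ⟨ν, hν⟩ := Pool.Agent.H50.CS.exists_isMA hΩ hu
    refine ⟨ν, (isMA_iff Ω u ν).2 hν, fun ν' hν' => ?_⟩
    exact Pool.Agent.H50.CS.IsMA.unique hΩ hu ((isMA_iff Ω u ν').1 hν') hν
  · obtain ⟨μ, h1, h2, h3, ⟨φ, ν, h4, h5⟩, h6⟩ := Pool.Agent.H50.CS.counterexample
    exact ⟨μ, h1, h2, h3, ⟨φ, ν, (contSol_iff _ _ _).2 h4, h5⟩,
      fun ⟨ψ, hψ⟩ => h6 ⟨ψ, (contSol_iff _ _ _).1 hψ⟩⟩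

end Pool.Agent.Results.MP_529c98_an.NoContinuousSolution
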